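import Pool.Agent.H159.SSq.Ana
import Pool.Agent.Q144.SSq.Dyck
import Pool.Agent.Q144.SSq.Low
import Pool.Agent.Q144.SSq.Lim
import Pool.Agent.Q190.SSq.Zlow
import Pool.Agent.Q190.SSq.Pairs
import Pool.Agent.Q210.SSq.CanP
import Pool.Agent.Q210.SSq.Up

/-!
# MP_e74ce2_co: the number of shuffle squares over large alphabets

`L_k = 4 k - 2 - o(1)`.
-/

set_option autoImplicit false

namespace Pool.Agent.Results.MP_e74ce2_co.GrowthRate

open Filter Topology

/-- `w`, a word of length `2 n`, is a shuffle square: its positions are split into two increasing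
sequences `f`, `g` of length `n` along which `w` reads the same word. -/
def IsShuffleSquare {α : Type*} {n : ℕ} (w : Fin (2 * n) → α) : Prop :=
  ∃ f g : Fin n → Fin (2 * n), StrictMono f ∧ StrictMono g ∧ (∀ i j, f i ≠ g j) ∧
    ∀ i, w (f i) = w (g i)

/-- the number of shuffle squares of semi-length `n` over an alphabet with `k` letters -/
noncomputable def count (k n : ℕ) : ℕ :=
  Nat.card {w : Fin (2 * n) → Fin k // IsShuffleSquare w}

/-- `L_k = 4 k - 2 - o(1)`. -/
theorem result : ∃ L : ℕ → ℝ,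
    (∀ k, 1 ≤ k → Tendsto (fun n : ℕ => (count k n : ℝ) ^ ((1 : ℝ) / n)) atTop (𝓝 (L k))) ∧
      Tendsto (fun k : ℕ => 4 * (k : ℝ) - 2 - L k) atTop (𝓝 0) :=
  Pool.Agent.H159.SSq.main Pool.Agent.Q190.SSq.pairs Pool.Agent.Q144.SSq.dyck
    Pool.Agent.Q190.SSq.Zlow Pool.Agent.Q210.SSq.can Pool.Agent.Q144.SSq.sq
    Pool.Agent.Q210.SSq.up Pool.Agent.Q144.SSq.low Pool.Agent.Q210.SSq.cntb
    Pool.Agent.Q144.SSq.lim

end Pool.Agent.Results.MP_e74ce2_co.GrowthRate
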